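import Pool.Agent.W_7d29a1_h4g.LAinst
import Pool.Agent.W_7d29a1_h95g.Tube
import Pool.Agent.W_7d29a1_g.CrossMean

/-!
Track G (MP_7d29a1_pr): the tube lemma of helper95 with the step (MC) (cheap with positive probability implies cheap in
the mean). Price and cheapness in the mean only. Then the mean cost of the polymer in the tube. (helper57)
-/

namespace Pool.Agent.W_7d29a1_h57g

open MeasureTheory ProbabilityTheory Filter Topology Pool.Agent.W_7d29a1_F Pool.Agent.W_7d29a1_h60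
open Pool.Agent.W_7d29a1_h4g Pool.Agent.W_7d29a1_h95g Pool.Agent.W_7d29a1_g

variable {μ : Measure ℝ} {s : ℝ}

/-- The displacements along the line `l` of duration between `n` and `2 n` cost at most `A` in the mean (`X⁺`). -/
def CheapL (μ : Measure ℝ) (s : ℝ) (l : ℤ → ℤ) (n : ℕ) (A : ℝ) : Prop :=
  ∀ (i : ℤ) (m : ℕ), -(n : ℤ) ≤ i → i + m ≤ 2 * n → n ≤ m → m ≤ 2 * n → epp μ s m (l (i + m) - l i) ≤ A

theorem CheapL.fwd {l : ℤ → ℤ} {n : ℕ} {A : ℝ} (h : CheapL μ s l n A) :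
    ∀ k < n, epp μ s (2 * n - (k + 1)) (l ((2 * n : ℕ) : ℤ) - l ((k + 1 : ℕ) : ℤ)) ≤ A := by
  intro k hk
  have e1 : ((2 * n : ℕ) : ℤ) = ((k + 1 : ℕ) : ℤ) + ((2 * n - (k + 1) : ℕ) : ℤ) := by
    rw [Nat.cast_sub (by omega)]
    ring
  have h2 := h ((k + 1 : ℕ) : ℤ) (2 * n - (k + 1)) (by push_cast; omega) (by rw [← e1]; push_cast; omega)
    (by omega) (by omega)
  rwa [← e1] at h2

theorem CheapL.bwd {l : ℤ → ℤ} {n : ℕ} {A : ℝ} (h : CheapL μ s l n A) :
    ∀ k < n, epp μ s (n + (k + 1)) (l ((k + 1 : ℕ) : ℤ) - l (-(n : ℤ))) ≤ A := by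
  intro k hk
  have e1 : ((k + 1 : ℕ) : ℤ) = -(n : ℤ) + ((n + (k + 1) : ℕ) : ℤ) := by
    push_cast
    ring
  have h2 := h (-(n : ℤ)) (n + (k + 1)) le_rfl (by rw [← e1]; push_cast; omega) (by omega) (by omega)
  rwa [← e1] at h2

variable [IsProbabilityMeasure μ]

/-- (MC) for point to point weights: an expensive displacement is cheap with small probability only. -/
theorem rare_of_price (hEM : Pool.Agent.W_7d29a1_h47.EM μ) (hnd : Pool.Agent.W_7d29a1_h47.Nondeg μ) {p : ℝ}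
    (hp : 0 < p) : ∃ (T : ℕ) (C : ℝ), ∀ (s : ℝ) (z : ℕ → ℤ), (∀ m, 0 ≤ z m ∧ z m ≤ m) → ∀ (n : ℕ) (y : ℤ) (u : ℝ),
      max (max (2 * u) C) (6 * EU μ s z (2 ^ T * n)) < e μ s n y →
      (law μ).real {η | X μ s η 0 n y ≤ u} ≤ p := by
  obtain ⟨T, C, h⟩ := mean_le_EU_all hEM hnd hp
  refine ⟨T, C, fun s z hz n y u hu => ?_⟩
  by_contra hcon
  push Not at hcon
  -- the displacement is admissible, otherwise its mean cost would be `0`
  have hadm : 0 ≤ y ∧ y ≤ n := by
    by_contra hna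
    have h1 : e μ s n y = 0 := by
      unfold e X
      have h2 : ∀ η : Env, W μ s η 0 n y = 0 := fun η => W_eq_zero η 0 hna
      simp [h2]
    have h3 := one_le_EU (μ := μ) (s := s) (z := z) (2 ^ T * n)
    have h4 := (le_max_right (max (2 * u) C) (6 * EU μ s z (2 ^ T * n))).trans_lt hu
    rw [h1] at h4
    linarith
  have h1 := h s z hz n (fun η => W μ s η 0 n y) ?_ (fun η => W_pos η 0 hadm.1 hadm.2) ?_ u ?_
  · have h2 : -∫ η, Real.log (W μ s η 0 n y) ∂(law μ) = e μ s n y := by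
      unfold e X
      rw [integral_neg]
    rw [h2] at h1
    exact absurd hu (not_lt.2 h1)
  · refine (poly_W (μ := μ) (s := s) 0 n y).mono ?_
    rintro q ⟨q1, q2, _, _⟩
    refine ⟨q1, ?_⟩
    simpa using q2
  · intro η
    have h2 := neg_X_le_V (μ := μ) (s := s) η 0 hadm.1 hadm.2
    unfold X at h2
    rwa [neg_neg] at h2
  · refine hcon.le.trans (measureReal_mono (fun η hη => ?_) (measure_ne_top _ _))
    rw [Set.mem_ofPred_eq] at hη ⊢
    unfold X at hη
    linarith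

/-- THE TUBE LEMMA with means only. -/
theorem tube_mc (hEM : Pool.Agent.W_7d29a1_h47.EM μ) (hnd : Pool.Agent.W_7d29a1_h47.Nondeg μ) {ε : ℝ} (hε : 0 < ε) :
    ∃ (T : ℕ) (C : ℝ), 1 ≤ C ∧ ∀ (s : ℝ) (z : ℕ → ℤ), (∀ m, 0 ≤ z m ∧ z m ≤ m) → ∀ (lm lp : ℤ → ℤ), IsLine lm →
      IsLine lp → lm 0 < 0 → 0 < lp 0 → ∀ (n : ℕ) (y : ℤ) (A : ℝ), 0 ≤ y → y ≤ n → 1 ≤ A → Real.log (4 * n) ≤ A →
      CheapL μ s lm n A → CheapL μ s lp n A →
      0 ≤ lm ((2 * n : ℕ) : ℤ) → lm ((2 * n : ℕ) : ℤ) ≤ ((2 * n : ℕ) : ℤ) → epp μ s (2 * n) (lm ((2 * n : ℕ) : ℤ)) ≤ A →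
      0 ≤ y - lp (-(n : ℤ)) → y - lp (-(n : ℤ)) ≤ ((2 * n : ℕ) : ℤ) → epp μ s (2 * n) (y - lp (-(n : ℤ))) ≤ A →
      epp μ s n y ≤ A →
      max (C * A) (6 * EU μ s z (2 ^ T * n)) < e μ s (2 * n) (lp ((2 * n : ℕ) : ℤ)) →
      max (C * A) (6 * EU μ s z (2 ^ T * n)) < e μ s (2 * n) (y - lm (-(n : ℤ))) →
      (law μ).real {η | X μ s η 0 n y ≤ C * A} ≥ 1 - ε ∧
      1 - ε ≤ (law μ).real {η | W μ s η 0 n y ≤ 2 * WR μ s (Tb lm lp) η 0 n y} := by
  obtain ⟨T, C, h⟩ := rare_of_price hEM hnd (p := ε / 8) (by positivity)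
  refine ⟨T + 1, max C 0 + 2 * (5 + 20 / ε) + 1, ?_, ?_⟩
  · have h1 : 0 ≤ 20 / ε := by positivity
    have h2 := le_max_right C 0
    linarith
  intro s z hz lm lp hlm hlp hm0 hp0 n y A hy0 hy1 hA1 hlog hcm hcp r1 r2 m1 r3 r4 m2 m3 hR hL
  have hA0 : 0 < A := by linarith
  have hinv : 0 < 1 / ε := by positivity
  have h20 : 20 / ε = 20 * (1 / ε) := by ring
  set q : ℝ := 1 / ε with hq
  have hqε : q * ε = 1 := by
    rw [hq]
    field_simp
  have hT : (2 : ℕ) ^ (T + 1) * n = 2 ^ T * (2 * n) := by ring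
  rw [hT] at hR hL
  -- the parameters
  have hbound : ∀ r : ℝ, max ((max C 0 + 2 * (5 + 20 / ε) + 1) * A) (6 * EU μ s z (2 ^ T * (2 * n))) < r →
      max (max (2 * ((A + 8 * A * q) + (8 * A * q) + A + 2 * A)) C) (6 * EU μ s z (2 ^ T * (2 * n))) < r := by
    intro r hr
    have h1 := (le_max_left ((max C 0 + 2 * (5 + 20 / ε) + 1) * A) (6 * EU μ s z (2 ^ T * (2 * n)))).trans_lt hr
    have h2 := (le_max_right ((max C 0 + 2 * (5 + 20 / ε) + 1) * A) (6 * EU μ s z (2 ^ T * (2 * n)))).trans_lt hr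
    rw [h20] at h1
    have h3 : 0 ≤ max C 0 := le_max_right _ _
    have h4 : C ≤ max C 0 := le_max_left _ _
    have h5 : 0 < A * q := mul_pos hA0 hinv
    have h6 : max C 0 ≤ max C 0 * A := le_mul_of_one_le_right h3 hA1
    refine max_lt (max_lt ?_ ?_) h2
    · refine lt_of_le_of_lt ?_ h1
      have h7 : 0 ≤ max C 0 * A := mul_nonneg h3 hA0.le
      nlinarith
    · refine lt_of_le_of_lt ?_ h1
      nlinarith
  have x1 := h s z hz (2 * n) (lp ((2 * n : ℕ) : ℤ)) _ (hbound _ hR)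
  have x2 := h s z hz (2 * n) (y - lm (-(n : ℤ))) _ (hbound _ hL)
  constructor
  · -- the end point is cheap
    have h1 := half_X (μ := μ) (s := s) hEM 0 hy0 hy1 m3 (c := (max C 0 + 2 * (5 + 20 / ε) + 1) * A) (by positivity)
    have h2 : A / ((max C 0 + 2 * (5 + 20 / ε) + 1) * A) ≤ ε := by
      rw [div_le_iff₀ (by positivity), h20]
      have h3 : 0 ≤ max C 0 := le_max_right _ _
      have h4 : ε * ((max C 0 + 2 * (5 + 20 * q) + 1) * A) = ε * (max C 0 + 11) * A + 40 * (q * ε) * A := by ring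
      rw [h4, hqε]
      have h5 : 0 ≤ ε * (max C 0 + 11) * A := by positivity
      linarith
    linarith
  · have h1 := tube_abs (μ := μ) (s := s) hEM hlm hlp hm0 hp0 (n := n) (N := 2 * n) (M := n) (by omega) hy0 hy1
      (A := A) (Y := (A + 8 * A * q) + (8 * A * q) + A) (G := A + 8 * A * q) (B := 8 * A * q) (ε := ε / 8) hA0
      hcp.fwd hcm.fwd hcp.bwd hcm.bwd r1 r2 m1 r3 ?_ ?_ m3 x1 ?_ ?_ (by positivity) (by linarith)
    · have h2 : A / (A + 8 * A * q - A) = ε / 8 := by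
        rw [div_eq_iff (by nlinarith [mul_pos hA0 hinv])]
        have : ε / 8 * (A + 8 * A * q - A) = q * ε * A := by ring
        rw [this, hqε]
        ring
      have h3 : A / (8 * A * q) = ε / 8 := by
        rw [div_eq_iff (by positivity)]
        have : ε / 8 * (8 * A * q) = q * ε * A := by ring
        rw [this, hqε]
        ring
      rw [h2, h3] at h1
      linarith
    · have e1 : ((n + n : ℕ) : ℤ) = ((2 * n : ℕ) : ℤ) := by push_cast; ring
      rw [e1]
      exact r4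
    · have e1 : n + n = 2 * n := by ring
      rw [e1]
      exact m2
    · have e1 : n + n = 2 * n := by ring
      rw [e1]
      exact x2
    · have := mul_pos hA0 hinv
      nlinarith

/-- A path in the tube from a positive weight. -/
theorem hasPath_of_pos {R : Set Pt} {η : Env} : ∀ (n : ℕ) (y : ℤ), 0 < Zr R η 0 n y → HasPath R 0 n y := by
  intro n
  induction n with
  | zero =>
    intro y hy
    have hy0 : y = 0 := by
      by_contra h
      rw [Zr_zero, if_neg h] at hy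
      exact lt_irrefl _ hy
    subst hy0
    exact ⟨fun _ => 0, rfl, rfl, fun k hk => absurd hk (Nat.not_lt_zero k), fun k h1 h2 => by omega⟩
  | succ n ih =>
    intro y hy
    rw [Zr_succ] at hy
    have hin : (((0 : Pt).1 + ((n : ℤ) + 1), (0 : Pt).2 + y) : Pt) ∈ R := by
      by_contra h
      rw [Set.indicator_of_notMem h, zero_mul] at hy
      exact lt_irrefl _ hy
    rw [Set.indicator_of_mem hin] at hy
    have h1 : 0 < Zr R η 0 n y + Zr R η 0 n (y - 1) := by
      by_contra h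
      push Not at h
      have := mul_nonpos_of_nonneg_of_nonpos (Real.exp_pos (η ((0 : Pt).1 + ((n : ℤ) + 1), (0 : Pt).2 + y))).le h
      linarith
    have h2 : ∃ y', (y = y' ∨ y = y' + 1) ∧ 0 < Zr R η 0 n y' := by
      by_cases h : 0 < Zr R η 0 n y
      · exact ⟨y, Or.inl rfl, h⟩
      · refine ⟨y - 1, Or.inr (by ring), ?_⟩
        linarith [not_lt.1 h]
    obtain ⟨y', hy', h3⟩ := h2
    obtain ⟨p, p0, pn, pst, pR⟩ := ih y' h3
    refine ⟨fun k => if k ≤ n then p k else y, ?_, ?_, ?_, ?_⟩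
    · simp [p0]
    · simp
    · intro k hk
      beta_reduce
      by_cases hk' : k + 1 ≤ n
      · rw [if_pos hk', if_pos (by omega : k ≤ n)]
        exact pst k (by omega)
      · have e1 : k = n := by omega
        subst e1
        rw [if_neg (by omega), if_pos le_rfl, pn]
        exact hy'
    · intro k hk1 hk2
      beta_reduce
      by_cases hk' : k ≤ n
      · rw [if_pos hk']
        exact pR k hk1 hk'
      · have e1 : k = n + 1 := by omega
        subst e1
        rw [if_neg (by omega)]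
        have e2 : (((0 : Pt).1 + ((n + 1 : ℕ) : ℤ), (0 : Pt).2 + y) : Pt) = ((0 : Pt).1 + ((n : ℤ) + 1), (0 : Pt).2 + y) := by
          push_cast
          rfl
        rw [e2]
        exact hin

end Pool.Agent.W_7d29a1_h57g
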