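import Pool.Agent.W_7d29a1_h57g.TubeMC
import Pool.Agent.W_7d29a1_g.TubeSoft

/-!
Track G (MP_7d29a1_pr): the tube lemma for straight lines, in means only (`e`), and the mean cost of the polymer in the
tube. (helper57)
-/

namespace Pool.Agent.W_7d29a1_h57g

open MeasureTheory ProbabilityTheory Filter Topology Pool.Agent.W_7d29a1_F Pool.Agent.W_7d29a1_h60
open Pool.Agent.W_7d29a1_h4g Pool.Agent.W_7d29a1_h95g Pool.Agent.W_7d29a1_g

variable {μ : Measure ℝ} [IsProbabilityMeasure μ] {s : ℝ}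

/-- `E X⁺ ≤ E X + EU`. -/
theorem epp_le (hEM : Pool.Agent.W_7d29a1_h47.EM μ) {z : ℕ → ℤ} (hz : ∀ m, 0 ≤ z m ∧ z m ≤ m) {m N : ℕ} (hm : m ≤ N)
    {y : ℤ} (h0 : 0 ≤ y) (h1 : y ≤ m) : epp μ s m y ≤ e μ s m y + EU μ s z N := by
  have hpt : ∀ η : Env, max (X μ s η 0 m y) 0 ≤ X μ s η 0 m y + (V μ s η 0 m + max (X μ s η 0 m (z m)) 0) := by
    intro η
    have a1 := neg_X_le_V (μ := μ) (s := s) η 0 h0 h1
    have a2 := neg_X_le_V (μ := μ) (s := s) η 0 (hz m).1 (hz m).2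
    have a3 := le_max_left (X μ s η 0 m (z m)) 0
    have a4 := le_max_right (X μ s η 0 m (z m)) 0
    refine max_le (by linarith) (by linarith)
  have i1 := (Sub_X (μ := μ) (s := s) 0 h0 h1).integrable hEM
  have i2 := (Sub_V (μ := μ) (s := s) 0 m).integrable hEM
  have i3 := ((Sub_X (μ := μ) (s := s) 0 (hz m).1 (hz m).2).max (Sub.const 0)).integrable hEM
  have i4 : Integrable (fun η => V μ s η 0 m + max (X μ s η 0 m (z m)) 0) (law μ) := i2.add i3
  have h2 := integral_mono (((Sub_X (μ := μ) (s := s) 0 h0 h1).max (Sub.const 0)).integrable hEM) (i1.add i4) hpt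
  simp only [Pi.add_apply] at h2
  rw [integral_add i1 i4, integral_add i2 i3] at h2
  have h3 := integral_V_nonpos hEM s m
  have h4 := ref_le_EU (μ := μ) (s := s) (z := z) hm
  have h5 : epp μ s m y = ∫ η, max (X μ s η 0 m y) 0 ∂(law μ) := rfl
  have h6 : e μ s m y = ∫ η, X μ s η 0 m y ∂(law μ) := rfl
  rw [h5, h6]
  linarith

/-- The mean cost of the polymer in a region from the two events of the tube lemma. -/
theorem eR_of_events (hEM : Pool.Agent.W_7d29a1_h47.EM μ) (hnd : Pool.Agent.W_7d29a1_h47.Nondeg μ) :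
    ∃ (T : ℕ) (C : ℝ), ∀ (s : ℝ) (z : ℕ → ℤ), (∀ m, 0 ≤ z m ∧ z m ≤ m) → ∀ (R : Set Pt) (n : ℕ) (y : ℤ) (u : ℝ),
      0 ≤ y → y ≤ n →
      3 / 4 ≤ (law μ).real {η | X μ s η 0 n y ≤ u} →
      3 / 4 ≤ (law μ).real {η | W μ s η 0 n y ≤ 2 * WR μ s R η 0 n y} →
      HasPath R 0 n y ∧ eR μ s R 0 n y ≤ max (max (2 * (u + Real.log 2)) C) (6 * EU μ s z (2 ^ T * n)) := by
  obtain ⟨T, C, h⟩ := eR_le (μ := μ) hEM hnd (p := 1 / 2) (by norm_num)
  refine ⟨T, C, fun s z hz R n y u hy0 hy1 hu hW => ?_⟩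
  have m1 : MeasurableSet {η | X μ s η 0 n y ≤ u} := measurableSet_le (measurable_X 0 n y) measurable_const
  have m2 : MeasurableSet {η | W μ s η 0 n y ≤ 2 * WR μ s R η 0 n y} :=
    measurableSet_le (measurable_W 0 n y) ((measurable_WR R 0 n y).const_mul 2)
  have h1 : 1 / 2 ≤ (law μ).real ({η | X μ s η 0 n y ≤ u} ∩ {η | W μ s η 0 n y ≤ 2 * WR μ s R η 0 n y}) := by
    have a1 := measureReal_union_add_inter (μ := law μ) (s := {η | X μ s η 0 n y ≤ u}) m2 (measure_ne_top _ _)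
      (measure_ne_top _ _)
    have a2 : (law μ).real ({η | X μ s η 0 n y ≤ u} ∪ {η | W μ s η 0 n y ≤ 2 * WR μ s R η 0 n y}) ≤ 1 :=
      measureReal_le_one
    linarith
  have hpath : HasPath R 0 n y := by
    have hne : ({η | X μ s η 0 n y ≤ u} ∩ {η | W μ s η 0 n y ≤ 2 * WR μ s R η 0 n y}).Nonempty := by
      by_contra hemp
      rw [Set.not_nonempty_iff_eq_empty] at hemp
      rw [hemp, measureReal_empty] at h1
      norm_num at h1
    obtain ⟨η, -, hη⟩ := hne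
    have hη' : W μ s η 0 n y ≤ 2 * WR μ s R η 0 n y := hη
    have h2 := W_pos (μ := μ) (s := s) η 0 hy0 hy1
    have h3 : 0 < WR μ s R η 0 n y := by linarith
    have h4 : 0 < Zr R η 0 n y := by
      unfold WR at h3
      by_contra hcon
      push Not at hcon
      have := mul_nonpos_of_nonneg_of_nonpos (Real.exp_pos (s * (y : ℝ) - n * lam μ s)).le hcon
      linarith
    exact hasPath_of_pos n y h4
  refine ⟨hpath, ?_⟩
  refine h s z hz R n y hpath (u + Real.log 2) (h1.trans (measureReal_mono ?_ (measure_ne_top _ _)))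
  rintro η ⟨e1, e2⟩
  have e1' : X μ s η 0 n y ≤ u := e1
  have e2' : W μ s η 0 n y ≤ 2 * WR μ s R η 0 n y := e2
  show -Real.log (WR μ s R η 0 n y) ≤ u + Real.log 2
  have h2 := W_pos (μ := μ) (s := s) η 0 hy0 hy1
  have h3 : 0 < WR μ s R η 0 n y := by linarith
  have h4 := Real.log_le_log h2 e2'
  rw [Real.log_mul (by norm_num) h3.ne'] at h4
  unfold X at e1'
  linarith

/-- The mean cost decreases with the region. -/
theorem eR_anti (hEM : Pool.Agent.W_7d29a1_h47.EM μ) {R R' : Set Pt} (hR : R ⊆ R') {n : ℕ} {y : ℤ}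
    (h : HasPath R 0 n y) : eR μ s R' 0 n y ≤ eR μ s R 0 n y := by
  unfold eR
  refine integral_mono ((h.mono hR).sub.neg.integrable hEM) (h.sub.neg.integrable hEM) fun η => ?_
  have h1 := h.wr_pos (μ := μ) (s := s) η
  refine neg_le_neg (Real.log_le_log h1 ?_)
  unfold WR
  exact mul_le_mul_of_nonneg_left (Zr_mono hR η 0 n y) (Real.exp_pos _).le

/-- A straight line. -/
noncomputable def sl (c b : ℝ) (t : ℤ) : ℤ := ⌊c * t + b⌋

theorem sl_isLine {c : ℝ} (h0 : 0 ≤ c) (h1 : c ≤ 1) (b : ℝ) : IsLine (sl c b) := by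
  constructor
  · intro t
    unfold sl
    refine Int.floor_le_floor ?_
    push_cast
    nlinarith
  · intro t
    unfold sl
    have h2 : ⌊c * ((t + 1 : ℤ) : ℝ) + b⌋ ≤ ⌊(c * t + b) + 1⌋ := by
      refine Int.floor_le_floor ?_
      push_cast
      nlinarith
    rwa [Int.floor_add_one] at h2

theorem sl_diff (c b : ℝ) (i j : ℤ) : |((sl c b j - sl c b i : ℤ) : ℝ) - c * ((j - i : ℤ) : ℝ)| ≤ 1 := by
  unfold sl
  have h1 := Int.floor_le (c * (j : ℝ) + b)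
  have h2 := Int.lt_floor_add_one (c * (j : ℝ) + b)
  have h3 := Int.floor_le (c * (i : ℝ) + b)
  have h4 := Int.lt_floor_add_one (c * (i : ℝ) + b)
  push_cast
  rw [abs_le]
  constructor <;> nlinarith

/-- The tube lemma for straight lines, in means: `B` is (a bound of) the unit. -/
theorem tube_line (hEM : Pool.Agent.W_7d29a1_h47.EM μ) (hnd : Pool.Agent.W_7d29a1_h47.Nondeg μ) {ε K : ℝ} (hε : 0 < ε)
    (hK : 1 ≤ K) : ∃ (T : ℕ) (C : ℝ), 1 ≤ C ∧ ∀ (s : ℝ) (z : ℕ → ℤ), (∀ m, 0 ≤ z m ∧ z m ≤ m) →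
      ∀ (c D B : ℝ) (n : ℕ), 0 ≤ c → c ≤ 1 → 1 ≤ D → 1 ≤ n → EU μ s z (2 ^ T * n) ≤ B → Real.log (4 * n) ≤ K * B →
      (∀ (m : ℕ) (y : ℤ), n ≤ m → m ≤ 2 * n → 0 ≤ y → y ≤ m → |(y : ℝ) - c * m| ≤ 1 → e μ s m y ≤ K * B) →
      (∀ y : ℤ, |(y : ℝ) - (c * (2 * n : ℕ) - D)| ≤ 1 → 0 ≤ y ∧ y ≤ (2 * n : ℕ) ∧ e μ s (2 * n) y ≤ K * B) →
      (∀ y : ℤ, |(y : ℝ) - (c * (2 * n : ℕ) + D)| ≤ 1 → C * B < e μ s (2 * n) y) →
      1 - ε ≤ (law μ).real {η | X μ s η 0 n ⌊c * n⌋ ≤ C * B} ∧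
      1 - ε ≤ (law μ).real {η | W μ s η 0 n ⌊c * n⌋ ≤ 2 * WR μ s (Tube 0 c D) η 0 n ⌊c * n⌋} ∧
      HasPath (Tube 0 c D) 0 n ⌊c * n⌋ ∧ eR μ s (Tube 0 c D) 0 n ⌊c * n⌋ ≤ C * B := by
  obtain ⟨T, C, hC, h⟩ := tube_mc hEM hnd (ε := min ε (1 / 4)) (lt_min hε (by norm_num))
  obtain ⟨T', C', h'⟩ := eR_of_events (μ := μ) hEM hnd
  refine ⟨T + T' + 1, 2 * (C * (2 * K)) + 2 * Real.log 2 + max C' 0 + 7, ?_, ?_⟩
  · have h1 : 0 ≤ C * (2 * K) := by positivity
    have h2 := Real.log_nonneg (show (1 : ℝ) ≤ 2 by norm_num)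
    have h3 := le_max_right C' 0
    linarith
  intro s z hz c D B n hc0 hc1 hD hn hB hlog hch hm1 hpr
  have hn1 : (1 : ℝ) ≤ n := by exact_mod_cast hn
  have hB1 : 1 ≤ B := (one_le_EU (μ := μ) (s := s) (z := z) _).trans hB
  have hE1 : EU μ s z (2 ^ T * n) ≤ B := (EU_mono (μ := μ) (s := s) (z := z)
    (Nat.mul_le_mul_right n (Nat.pow_le_pow_right (by norm_num) (by omega : T ≤ T + T' + 1)))).trans hB
  have hE2 : EU μ s z (2 ^ T' * n) ≤ B := (EU_mono (μ := μ) (s := s) (z := z)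
    (Nat.mul_le_mul_right n (Nat.pow_le_pow_right (by norm_num) (by omega : T' ≤ T + T' + 1)))).trans hB
  have hE3 : EU μ s z (2 * n) ≤ B := (EU_mono (μ := μ) (s := s) (z := z) (by
    have h1 : 2 ^ 1 ≤ 2 ^ (T + T' + 1) := Nat.pow_le_pow_right (by norm_num) (by omega)
    have h2 := Nat.mul_le_mul_right n h1
    rwa [pow_one] at h2)).trans hB
  obtain ⟨A, hA⟩ : ∃ A : ℝ, A = 2 * K * B := ⟨_, rfl⟩
  have hKB : 1 ≤ K * B := by nlinarith
  have hA1 : 1 ≤ A := by rw [hA]; linarith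
  have hKBB : B ≤ K * B := by nlinarith
  -- the cheap displacements
  have hepp : ∀ (m : ℕ) (y : ℤ), m ≤ 2 * n → 0 ≤ y → y ≤ m → e μ s m y ≤ K * B → epp μ s m y ≤ A := by
    intro m y hm h0 h1 he
    have h2 := epp_le (μ := μ) (s := s) hEM hz hm h0 h1
    rw [hA]
    linarith
  have hL : ∀ b : ℝ, CheapL μ s (sl c b) n A := by
    intro b i m _ _ hm hm2
    have h1 := sl_diff c b i (i + m)
    have h2 := (sl_isLine hc0 hc1 b).reach (show i ≤ i + m by omega)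
    have e1 : (i + (m : ℤ) - i : ℤ) = m := by ring
    rw [e1] at h1 h2
    refine hepp m _ hm2 h2.1 h2.2 (hch m _ hm hm2 h2.1 h2.2 ?_)
    rw [Int.cast_natCast] at h1
    exact h1
  -- the values of the lines
  have v1 : |((sl c (-D) ((2 * n : ℕ) : ℤ) : ℤ) : ℝ) - (c * (2 * n : ℕ) - D)| ≤ 1 := by
    unfold sl
    have h1 := Int.floor_le (c * (((2 * n : ℕ) : ℤ) : ℝ) + -D)
    have h2 := Int.lt_floor_add_one (c * (((2 * n : ℕ) : ℤ) : ℝ) + -D)
    rw [Int.cast_natCast] at h1 h2 ⊢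
    rw [abs_le]
    constructor <;> linarith
  have v2 : |((sl c D ((2 * n : ℕ) : ℤ) : ℤ) : ℝ) - (c * (2 * n : ℕ) + D)| ≤ 1 := by
    unfold sl
    have h1 := Int.floor_le (c * (((2 * n : ℕ) : ℤ) : ℝ) + D)
    have h2 := Int.lt_floor_add_one (c * (((2 * n : ℕ) : ℤ) : ℝ) + D)
    rw [Int.cast_natCast] at h1 h2 ⊢
    rw [abs_le]
    constructor <;> linarith
  have v3 : ∀ b : ℝ, |((⌊c * n⌋ - sl c b (-(n : ℤ)) : ℤ) : ℝ) - (c * (2 * n : ℕ) - b)| ≤ 1 := by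
    intro b
    unfold sl
    have h1 := Int.floor_le (c * ((-(n : ℤ) : ℤ) : ℝ) + b)
    have h2 := Int.lt_floor_add_one (c * ((-(n : ℤ) : ℤ) : ℝ) + b)
    have h3 := Int.floor_le (c * (n : ℝ))
    have h4 := Int.lt_floor_add_one (c * (n : ℝ))
    push_cast at h1 h2 ⊢
    rw [abs_le]
    constructor <;> linarith
  have hy0 : 0 ≤ ⌊c * (n : ℝ)⌋ := Int.floor_nonneg.2 (by positivity)
  have hy1 : ⌊c * (n : ℝ)⌋ ≤ n := by
    have h1 : ⌊c * (n : ℝ)⌋ ≤ ⌊((n : ℤ) : ℝ)⌋ := by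
      refine Int.floor_le_floor ?_
      rw [Int.cast_natCast]
      nlinarith
    rwa [Int.floor_intCast] at h1
  have hyc : |((⌊c * (n : ℝ)⌋ : ℤ) : ℝ) - c * n| ≤ 1 := by
    have h3 := Int.floor_le (c * (n : ℝ))
    have h4 := Int.lt_floor_add_one (c * (n : ℝ))
    rw [abs_le]
    constructor <;> linarith
  have w1 := hm1 _ v1
  have w2 := hm1 _ (by have := v3 D; exact this)
  have hlt : ∀ r : ℝ, (2 * (C * (2 * K)) + 2 * Real.log 2 + max C' 0 + 7) * B < r →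
      max (C * A) (6 * EU μ s z (2 ^ T * n)) < r := by
    intro r hr
    have h1 : 0 ≤ C * (2 * K) * B := by positivity
    have h2 := Real.log_nonneg (show (1 : ℝ) ≤ 2 by norm_num)
    have h3 := le_max_right C' 0
    have h4 : 0 ≤ (2 * Real.log 2 + max C' 0) * B := by positivity
    refine max_lt ?_ ?_
    · rw [hA]
      nlinarith
    · nlinarith
  have hmain := h s z hz (sl c (-D)) (sl c D) (sl_isLine hc0 hc1 _) (sl_isLine hc0 hc1 _) ?_ ?_ n ⌊c * n⌋ A hy0 hy1 hA1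
    (by rw [hA]; linarith) (hL _) (hL _) w1.1 w1.2.1 (hepp _ _ le_rfl w1.1 w1.2.1 w1.2.2) w2.1 w2.2.1
    (hepp _ _ le_rfl w2.1 w2.2.1 w2.2.2)
    (hepp n _ (by omega) hy0 hy1 (hch n _ le_rfl (by omega) hy0 hy1 hyc))
    (hlt _ (hpr _ v2)) (hlt _ (hpr _ (by
      have := v3 (-D)
      rwa [sub_neg_eq_add] at this)))
  · obtain ⟨q1, q2⟩ := hmain
    have hsub : Tb (sl c (-D)) (sl c D) ⊆ Tube 0 c D := by
      rintro p ⟨p1, p2⟩
      simp only [Tube, Set.mem_setOf_eq, Prod.fst_zero, Prod.snd_zero, sub_zero]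
      have h1 := Int.floor_le (c * (p.1 : ℝ) + D)
      have h2 := Int.lt_floor_add_one (c * (p.1 : ℝ) + -D)
      have p1' : (sl c (-D) p.1 : ℝ) + 1 ≤ (p.2 : ℝ) := by exact_mod_cast p1
      have p2' : (p.2 : ℝ) ≤ (sl c D p.1 : ℝ) := by exact_mod_cast p2.le
      unfold sl at p1' p2'
      rw [abs_le]
      constructor <;> linarith
    have hCA : C * A ≤ (2 * (C * (2 * K)) + 2 * Real.log 2 + max C' 0 + 7) * B := by
      have h1 : 0 ≤ C * (2 * K) * B := by positivity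
      have h2 := Real.log_nonneg (show (1 : ℝ) ≤ 2 by norm_num)
      have h3 := le_max_right C' 0
      have h4 : 0 ≤ (2 * Real.log 2 + max C' 0) * B := by positivity
      rw [hA]
      nlinarith
    have r1 : 1 - min ε (1 / 4) ≤ (law μ).real {η | X μ s η 0 n ⌊c * n⌋ ≤ C * A} := q1
    have hmin1 := min_le_left ε (1 / 4)
    have hmin2 := min_le_right ε (1 / 4)
    have hev := h' s z hz (Tb (sl c (-D)) (sl c D)) n ⌊c * n⌋ (C * A) hy0 hy1 (by linarith) (by linarith)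
    refine ⟨?_, ?_, hev.1.mono hsub, ?_⟩
    · refine le_trans (by linarith) (r1.trans (measureReal_mono (fun η hη => ?_) (measure_ne_top _ _)))
      exact le_trans (show X μ s η 0 n ⌊c * n⌋ ≤ C * A from hη) hCA
    · refine le_trans (by linarith) (q2.trans (measureReal_mono (fun η hη => ?_) (measure_ne_top _ _)))
      have h1 : W μ s η 0 n ⌊c * n⌋ ≤ 2 * WR μ s (Tb (sl c (-D)) (sl c D)) η 0 n ⌊c * n⌋ := hη
      have h2 : WR μ s (Tb (sl c (-D)) (sl c D)) η 0 n ⌊c * n⌋ ≤ WR μ s (Tube 0 c D) η 0 n ⌊c * n⌋ := by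
        unfold WR
        exact mul_le_mul_of_nonneg_left (Zr_mono hsub η 0 n _) (Real.exp_pos _).le
      show W μ s η 0 n ⌊c * n⌋ ≤ 2 * WR μ s (Tube 0 c D) η 0 n ⌊c * n⌋
      linarith
    · refine (eR_anti hEM hsub hev.1).trans (hev.2.trans ?_)
      have h2 := Real.log_nonneg (show (1 : ℝ) ≤ 2 by norm_num)
      have h3 := le_max_right C' 0
      have h4 := le_max_left C' 0
      have h5 : 0 ≤ C * (2 * K) * B := by positivity
      have h6 : Real.log 2 ≤ Real.log 2 * B := le_mul_of_one_le_right h2 hB1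
      have h7 : max C' 0 ≤ max C' 0 * B := le_mul_of_one_le_right h3 hB1
      refine max_le (max_le ?_ ?_) ?_
      · rw [hA]
        nlinarith
      · nlinarith
      · nlinarith
  · show ⌊c * ((0 : ℤ) : ℝ) + -D⌋ < 0
    rw [Int.cast_zero, mul_zero, zero_add, Int.floor_lt]
    push_cast
    linarith
  · show 0 < ⌊c * ((0 : ℤ) : ℝ) + D⌋
    rw [Int.cast_zero, mul_zero, zero_add]
    exact Int.floor_pos.2 hD

end Pool.Agent.W_7d29a1_h57g
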